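import Pool.Agent.Helper53.UW.Num
import Pool.Agent.Helper53.UV.Fast
import Pool.Agent.Helper92.RE.Good

/-!
# PROJECT UR3 (MP_c578c8_lc): goals, part C (programs with described memory)
-/

namespace Pool.Agent.Helper53.UW

open Pool.Agent.Helper65.LinSpace Pool.Agent.Helper78.Mpc
open Pool.Agent.Helper81.RP (Ins AcceptsAt conf word)
open Pool.Agent.Helper81.Sus2 (NBM Decomp)
open Pool.Agent.Helper92.RE (LD machL)
open Pool.Agent.Helper53.UV (Machine FastTime FastCache FastBlocks)

/-- At the time `u` the memory of the program `P` has a description of at most `k` bits for the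
decompressor `E`: from a word `d` of at most `k` bits, and from the words `v` and `y`, it computes the
contents of all registers with numbers less than `2 ^ (9 s)`; the register `i` is given by the word
`word (2 i + 1)`, the content `x` by the word `word (x + 1)`, and the states of the decompressor have at
most `a` bits. -/
def Short (P : List Ins) (E : Decomp) (v y : List Bool) (s a k u : ℕ) : Prop :=
  ∃ d : List Bool, d.length ≤ k ∧ ∀ i x : ℕ, i < 2 ^ (9 * s) →
    (E.Says v y a d (word (2 * i + 1)) (word (x + 1)) ↔ (conf P v y u).2 i = x)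

/-- The program `P` accepts the word `v`, with the second word `y`, at some time `t`, all numbers in the
registers being less than `2 ^ s` up to this time. If the memory has no description of at most `k`
bits at the times strictly between `u` and `u' ≤ t`, then `u' - u` is at most `r`. Here
`⌊log₂ m⌋ + 1 ≤ s`, `r s ^ 5 ≤ C (m + 1) ^ 2` and `(a + s) s ^ 4 ≤ C (m + 1)`, where `a` is the bound for the
states of the decompressor. The time `t` is not bounded. -/
def FastSus (P : List Ins) (E : Decomp) (C : ℝ) (k m : ℕ) (v y : List Bool) : Prop :=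
  ∃ t s a r : ℕ, Nat.log 2 m + 1 ≤ s ∧ AcceptsAt P v y t ∧
    (∀ u ≤ t, ∀ i, (conf P v y u).2 i < 2 ^ s) ∧
    (∀ u u' : ℕ, u ≤ u' → u' ≤ t → (∀ j, u < j → j < u' → ¬Short P E v y s a k j) →
      u' ≤ u + r) ∧
    (r : ℝ) * (s : ℝ) ^ 5 ≤ C * ((m : ℝ) + 1) ^ 2 ∧
    ((a : ℝ) + s) * (s : ℝ) ^ 4 ≤ C * ((m : ℝ) + 1)

/-- DCL. Decompressors on the words `F w`. `E'` first computes `n = |w|` (it reads the letters
`0, 1, 2, …` of `w` until there is none), then it simulates `E`: for one step of `E` in the state `σ` with
the address `j` it reads the letter `adr1 D n j` of `w` (in binary; `min (pos n j) n`, so its number has at most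
`|j| + log₂ n + 2` bits), keeps its code (`lett`, 0, 1 or 2), then reads the letters `j` of `y` and of the
description, and computes the next state of `E` with the letter `D.lt n j (code)` of `F w` (`lt_eq` in
`Pool/Agent/Helper92/RE/Sim.lean`). States of `E'` are words `0 ++ code` with a code of
`(phase, n, σ, letter)`, for example `wd` of a number (`Pool/Agent/Helper92/RE/Mach.lean`: `sto`, `wf`,
`linComp_wf`) made of `n`, `num σ`, with at most `K (a + s + 1)` bits; if `E` reaches `1 1 v` then `E'` goes into
the state `1 1 v`. `bval (E.addr σ)` is the number of the address. The start state of `E'` is `0 i` (phase 0,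
`n = 0`, to be distinguished from the other states: every other state which does not begin with `1` may
begin with `0 0`, and `i` has to be recovered from the start state `0 i`; e.g. use that names `i` which matter
do not begin with `0`; the claim is only made for such `i`). -/
def GoalDCL : Prop := ∀ (E : Decomp) {D : LD} {F : List Bool → List Bool}, D.Is F →
  ∃ (E' : Decomp) (K : ℕ), ∀ (w y d i v : List Bool) (a s : ℕ), Nat.log 2 w.length + 1 ≤ s →
    i.head? ≠ some false → E.Says (F w) y a d i v → E'.Says w y (K * (a + s + 1)) d i v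

/-- GDL. Good computations of the machine `machL D P` (`Pool/Agent/Helper92/RE/Mach.lean`, `Sim.lean`,
`Good.lean`; compare `good_of_fast` there, and `short_mach`, `Good.lean` in `Pool/Agent/Helper81/RP`). `E'`, `K`
from DCL. `S = 9 s`, `a' = K (a + s + 1) + s`, `x' = n + 1 + 3 r + 9`, `r' = n + 1 + 3 t`; `guesses = 0`. The memory
of `machL` at the times `n + 1 + 3 m`, `n + 1 + 3 m + 1` is `memW (conf m).2` and at the time
`n + 1 + 3 m + 2` it is `memW (conf (m + 1)).2`; a description of the registers at the time `m` is a
description of this memory: names `i` with `|i| ≤ 9 s` which do not begin with `0` are `word (2 j + 1)` with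
`j < 2 ^ (9 s)`, `E.Says` and DCL give `E'.Says … i v₀` for the content `v₀`, and `E'.Says` is functional
(`says_fun`, `says_mono`). `s ^ 5 ≤ C (m + 1)` and `m + 1 ≤ (b₀ + 1) (n + 1)` give
`x' (9 s + l) ^ 5 ≤ C' (n + 1) ^ 2` with `l ≤ s`. -/
def GoalGDL : Prop := GoalDCL → ∀ (P : List Ins) (E : Decomp) {D : LD}
  {F : List Bool → List Bool}, D.Is F → ∃ E' : Decomp, ∀ (b₀ c : ℕ) (C : ℝ),
    (∀ w, (F w).length ≤ b₀ * (w.length + 1)) → (∀ w, w.length ≤ (F w).length) →
    ∃ (C' : ℝ) (n₁ : ℕ), ∀ w y : List Bool, n₁ ≤ w.length →
      FastSus P E C (c * w.length) (F w).length (F w) y → GoodS (machL D P) E' c C' w y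

end Pool.Agent.Helper53.UW
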