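import Pool.Agent.Helper53.UV.All
import Pool.Agent.Helper31.OL.Rec
import Pool.Agent.Helper81.Sus3.Final

/-!
# PROJECT UR3 (MP_c578c8_lc): goals, part A (families of questions, oracles)

Deliver `Pool/Agent/<Seat>/UW/XX.lean` with `theorem gXX : GoalXX` (namespace `Pool.Agent.<Seat>.UW`),
imports `Pool.Agent.Helper53.UW.Ask` (or the file with the goal).
-/

namespace Pool.Agent.Helper53.UW

open Pool.Agent.Helper65.LinSpace Pool.Agent.Helper78.Mpc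
open Pool.Agent.Helper1.TE (USPACE)
open Pool.Agent.Helper53.CTG (ev Et)
open Pool.Agent.Helper53.UR (GenOK)
open Pool.Agent.Helper31.OL (OL)

/-- A family of questions: the trees of the questions `z`, and the tests for the values of the roots. -/
structure QF (κ : Type) where
  N : κ → ℕ
  q : κ → ℕ
  b : κ → ℕ
  c : κ → ℕ
  W : κ → ℕ
  t : κ → ℕ → ℕ → ℕ → ℕ → ℕ → ℕ
  s : κ → ℕ → ℕ

namespace QF

/-- The value of the root. -/
def val {κ : Type} (Q : QF κ) (z : κ) : ℕ := ev (Q.t z) (Q.q z) (Q.c z) (Q.N z) 1 0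

/-- The answer, `0` or `1`. -/
def ans {κ : Type} (Q : QF κ) (z : κ) : ℕ := lt01 0 (Q.s z (Q.val z))

/-- The family is good. -/
structure Ok {κ : Type} [Ctx κ] (Q : QF κ) : Prop where
  hq : ∀ z, 1 ≤ Q.q z
  hN : ∀ z, Q.q z ≤ Q.N z
  hb : ∀ z, 1 ≤ Q.b z
  hc : ∀ z, Q.c z ≤ Q.b z
  hW : ∀ z, Q.W z = 2 ^ Et (Q.N z) (Q.q z) (Q.b z) (Q.c z)
  ht : ∀ z mm v x y w, Q.t z mm v x y w < 2 ^ Q.b z
  lN : LS Q.N
  lq : LS Q.q
  lb : LS Q.b
  lc : LS Q.c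
  lW : LS Q.W
  lt : LS (fun x : κ × ℕ × ℕ × ℕ × ℕ × ℕ =>
    Q.t x.1 x.2.1 x.2.2.1 x.2.2.2.1 x.2.2.2.2.1 x.2.2.2.2.2)
  ls : LS (fun x : κ × ℕ => Q.s x.1 x.2)

/-- Two families together: the question `(i, z, z')` is `z` for `i = 0`, otherwise `z'`. -/
def sum {κ κ' : Type} (Q : QF κ) (R : QF κ') : QF (ℕ × κ × κ') where
  N z := ifz z.1 (Q.N z.2.1) (R.N z.2.2)
  q z := ifz z.1 (Q.q z.2.1) (R.q z.2.2)
  b z := ifz z.1 (Q.b z.2.1) (R.b z.2.2)
  c z := ifz z.1 (Q.c z.2.1) (R.c z.2.2)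
  W z := ifz z.1 (Q.W z.2.1) (R.W z.2.2)
  t z mm v x y w := ifz z.1 (Q.t z.2.1 mm v x y w) (R.t z.2.2 mm v x y w)
  s z v := ifz z.1 (Q.s z.2.1 v) (R.s z.2.2 v)

end QF

/-- OLG. Languages of loops with questions are in unambiguous linear space: `OLM` of project UR2 for an
arbitrary family. The proof is `Pool/Agent/Helper31/UV/OLM.lean`, with `Q` instead of `Qn`, and `L.q` instead
of `pm (L.q ·)`. -/
def GoalOLG : Prop := GenOK → ∀ {κ : Type} [Ctx κ] (Q : QF κ), Q.Ok → ∀ F : ℕ → ℕ, OL Q.ans F →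
  {w | F (num w) ≠ 0} ∈ USPACE (fun n => (n : ℝ)) ∧
  {w | F (num w) ≠ 0}ᶜ ∈ USPACE (fun n => (n : ℝ))

/-- SUM. All fields by cases on `z.1 = 0`; `LS.ifz` and composition. The answers: cases on `i = 0`. -/
def GoalSUM : Prop := ∀ {κ κ' : Type} [Ctx κ] [Ctx κ'] (Q : QF κ) (R : QF κ'), Q.Ok → R.Ok →
  (Q.sum R).Ok ∧ (∀ z z', (Q.sum R).ans (0, z, z') = Q.ans z) ∧
  ∀ i z z', (Q.sum R).ans (i + 1, z, z') = R.ans z'

/-- SUB (substitution of oracles). If the oracle `acc'` is computed by a loop with the oracle `acc`, then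
every function which is computed by a loop with the oracle `acc'` is computed by a loop with the oracle
`acc`. Let `M` be the loop for `f` and `M'` the loop for `acc'`. The new loop has the states
`(phase, s, s')`: phase 0: if `M.h s ≠ 0` stop, else `s' := M'.I (M.q s)`, phase 1; phase 1: if
`M'.h s' = 0` one step of `M'` (with its question), else `s := M.d (s, lt01 0 (M'.o s'))`, phase 0. The
entries are bounded by `M.C a` (for `s`) and, for `s'`, by `M'.C (M.q s)`, which is bounded by a polynomial of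
`M.C a` (`LS.growth` for `M.q` and `M'.C`). Compare `OL.comp` in `Pool/Agent/Helper31/OL/Basic.lean`. -/
def GoalSUB : Prop := ∀ {κ κ' α γ : Type} [Ctx κ] [Ctx κ'] [Ctx α] [Ctx γ] (acc : κ → ℕ)
  (acc' : κ' → ℕ), OL acc acc' → ∀ f : α → γ, OL acc' f → OL acc f

open Pool.Agent.Helper81.Sus2 (Prm LSP) in
open Pool.Agent.Helper81.Sus3 (edge) in
/-- OLE. `edge` with an oracle: as LSE (`Pool/Agent/Helper56/Sus3/LSE.lean`), with `OL` instead of `LS`: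
`OL.of_ls`, `OL.ifz`, `OL.mul`, `OL.eq01`, `OL.sum_le`, `OL.nrec`, `OL.lst`, … of
`Pool/Agent/Helper31/OL/Rec.lean`, `OL.comp`, `OL.comp_ls`, `OL.prodMk` of `Basic.lean`. First `nxt`: as
`LS.nxt` in `Pool/Agent/Helper31/SusD/Grd.lean` with `OL.lst`. -/
def GoalOLE : Prop := ∀ {κ : Type} [Ctx κ] (acc : κ → ℕ) {α : Type} [Ctx α] (P : α → Prm)
  (C : α → ℕ), LSP P C → ∀ F : α → ℕ → ℕ → ℕ → ℕ → ℕ → ℕ → ℕ → ℕ,
  OL acc (fun z : α × ℕ × ℕ × ℕ × ℕ × ℕ × ℕ × ℕ => F z.1 z.2.1 z.2.2.1 z.2.2.2.1 z.2.2.2.2.1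
    z.2.2.2.2.2.1 z.2.2.2.2.2.2.1 z.2.2.2.2.2.2.2) →
  OL acc (fun z : α × ℕ × ℕ => edge (P z.1) (F z.1) z.2.1 z.2.2)

end Pool.Agent.Helper53.UW
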