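import Pool.Agent.Helper53.UW.Main

/-!
# PROJECT UR3 (MP_c578c8_lc): assembly from the goals
-/

namespace Pool.Agent.Helper53.UW

open Pool.Agent.Helper1.TE (USPACE)
open Pool.Agent.Helper78.Mpc (LinComp)
open Pool.Agent.Helper81.Gen4 (Q)
open Pool.Agent.Helper31.Gen5 (Hard)
open Pool.Agent.Helper81.Sus2 (Decomp)
open Pool.Agent.Helper92.RE (enc Universal NonUniversal)
open Pool.Agent.Helper53.UV (Machine lsParOK parOK tree fnvOK cmbOK tmcOK prcOK lsmOK)

theorem asm (hOLG : GoalOLG) (hSUM : GoalSUM) (hSUB : GoalSUB) (hOLE : GoalOLE)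
    (umc : UMC_stmt) (hPMW : GoalPMW) (hQWO : GoalQWO) (hFWV : GoalFWV) (hOLS : GoalOLS)
    (hPAW : GoalPAW) (hNBS : GoalNBS) (hDCL : GoalDCL) (hGDL : GoalGDL) (c : ℕ) (hc : 0 < c) :
    ∃ (L : Set (List Bool)) (f : List Bool → RegularExpression Bool) (b : ℕ),
      L ∈ USPACE (fun n => (n : ℝ)) ∧ Lᶜ ∈ USPACE (fun n => (n : ℝ)) ∧
      LinComp (fun w => enc (f w)) ∧
      (∀ w, w.length ≤ (enc (f w)).length ∧ (enc (f w)).length ≤ b * (w.length + 1)) ∧
      (∀ w, (f w).matches' = ⊤ ↔ w ∉ L) ∧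
      (∃ c' : ℝ, ∀ n : ℕ, |({w : List Bool | w.length = n ∧ w ∈ L}.ncard : ℝ) - 2 ^ n / 2| ≤
        c' * 2 ^ ((n : ℝ) / 2)) ∧
      (∀ F : List Bool → List Bool, F = id ∨ F = (fun w => enc (f w)) →
        ∀ (X : Machine) (E : Decomp) (a : ℕ) (C : ℝ),
          Hard L c (fun w α => X.Acc (F w) α)
            (fun w α => Fast X E a C (c * w.length) (F w).length (F w) α) ∧
          Hard L c (fun w α => Q (c * w.length) fun v => X.Acc (F w) (α ++ v))
            (fun w α => Q (c * w.length) fun v =>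
              Fast X E a C (c * w.length) (F w).length (F w) (α ++ v))) ∧
      ∀ U : Set (List Bool), U = Universal ∨ U = NonUniversal →
        ∀ X : Machine, (∀ v, X.Acc v [] → v ∈ U) → ∀ (E : Decomp) (a : ℕ) (C : ℝ),
          {w | Fast X E a C (c * w.length) (enc (f w)).length (enc (f w)) []}.Finite := by
  have pmw : PMW_stmt := hPMW lsParOK
  have qwo : ∀ c₀ : ℕ, (qW c₀).Ok := hQWO umc pmw parOK lsParOK
    Pool.Agent.Helper46.UV.gETB.2 Pool.Agent.Helper81.Sus3.parts.lsw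
  have fw : FwOK := hFWV umc tree
  have hV : qV.Ok := qV_ok parOK lsParOK Pool.Agent.Helper46.UV.gETB.2
    (Pool.Agent.Helper36.UV.gTLS parOK lsParOK lsmOK)
  have yok : YOK := yok_of hSUM hSUB hV qwo lsParOK.1 (hOLS hOLE pmw)
  have hub : HubY := hubY_of @Pool.Agent.Helper53.UR.genOK hOLG hSUB
    Pool.Agent.Helper31.UR.qHardOL lsParOK.1 yok
  have sus : SusOK := hNBS fw pmw Pool.Agent.Helper81.Sus3.parts hPAW
  exact main hub sus hGDL hDCL fnvOK cmbOK tmcOK prcOK Pool.Agent.Helper53.UR.redOK c hc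

end Pool.Agent.Helper53.UW
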