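import Pool.Agent.Helper53.UW.Ram

/-!
# Fast machines with described memory: definitions
-/

namespace Pool.Agent.Helper53.UW

open Pool.Agent.Helper81.Sus2 (Decomp)
open Pool.Agent.Helper53.UV (Machine)

/-- The machine accepts the word `v`, with the second word `y`, within the bounds for the number `m`: a
program with a memory which often has a description of at most `k` bits for the decompressor `E`
(`FastSus`), or in `C m ^ 2 / log ^ 5 m` steps, or with a small cache, or in small blocks; a Turing
machine in at most `C (m + 1) ^ 3 / (log₂ m + 1) ^ 9` steps. -/
def Fast : Machine → Decomp → ℕ → ℝ → ℕ → ℕ → List Bool → List Bool → Prop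
  | .prog P, E, a, C, k, m, v, y => FastSus P E C k m v y ∨ (Machine.prog P).Fast a C m v y
  | .tm M, _, a, C, _, m, v, y => (Machine.tm M).Fast a C m v y

end Pool.Agent.Helper53.UW
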