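import Pool.Agent.Helper53.UW.Num

namespace Pool.Agent.Helper53.UW.UMC

open Pool.Agent.Helper65.LinSpace Pool.Agent.Helper78.Mpc Pool.Agent.Helper28.Ram
open Pool.Agent.Helper81.Sus2 (Prm)
open Pool.Agent.Helper81.Sus3 (vN v0 vf)
open Pool.Agent.Helper28.Sus (gf)

theorem cap_cap (V x : ℕ) : capN V (capN V x) = capN V x := by
  by_cases h : capN V x = 0
  · rw [h]
    by_contra h1
    exact h1 (by
      have := capN_ne h1
      exact this)
  · rw [capN_ne h, capN_ne h]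

theorem conf_gf (m : Pool.Agent.Helper53.UV.RM) (A : ℕ → ℕ) (N : ℕ → ℕ → ℕ) (W : ℕ → ℕ → ℕ → ℕ)
    (hA : m.A = A) (hR : m.R = N) (hN : ∀ q c, m.N q (N q c) = N q c)
    (hW : ∀ q c x k, m.W q (N q c) x k = W x (N q c) k) (t : ℕ) :
    m.conf t = gf A N W m.q0 m.M0 t := by
  induction t with
  | zero => rfl
  | succ t ih =>
    subst hA hR
    show (m.N (m.conf t).1 (m.R (m.conf t).1 ((m.conf t).2 (m.A (m.conf t).1))), fun x =>
      m.W (m.conf t).1 (m.R (m.conf t).1 ((m.conf t).2 (m.A (m.conf t).1))) x ((m.conf t).2 x)) = _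
    simp only [hN, hW, ih]
    rfl

theorem umN (P : Prm) (τ Y c p d p' a q v : ℕ) :
    (um P τ Y c p d p' a).N q v = capN P.V v := rfl

theorem umW (P : Prm) (τ Y c p d p' a q v x k : ℕ) :
    (um P τ Y c p d p' a).W q v x k = P.wW x (capN P.V v) k := rfl

theorem hvN (P : Prm) (τ Y d p' a q v : ℕ) :
    capN P.V (vN P τ Y d p' a q v) = vN P τ Y d p' a q v := by
  unfold vN
  exact cap_cap _ _

theorem gUMC : UMC_stmt := by
  refine ⟨fun P τ Y c p d p' a => ⟨fun q => ?_, fun q k => ?_, fun q v => ?_, fun q v x k => ?_,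
    ?_, fun x => ?_⟩, fun P τ Y c p d p' a k => ?_⟩
  · exact capN_lt _ _
  · exact capN_lt _ _
  · exact capN_lt _ _
  · exact capN_lt _ _
  · exact capN_lt _ _
  · exact capN_lt _ _
  · refine conf_gf (um P τ Y c p d p' a) (P.wA τ a) (vN P τ Y d p' a) P.wW rfl rfl
      (fun q k => ?_) (fun q k x z => ?_) k
    · rw [umN, hvN]
    · rw [umW, hvN]

end Pool.Agent.Helper53.UW.UMC
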