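import Pool.Agent.Helper53.UW.Asm
import Pool.Agent.Helper12.UW.OLG
import Pool.Agent.Helper57.UW.SUM
import Pool.Agent.Helper13.UW.SUB
import Pool.Agent.Helper45.UW.OLE
import Pool.Agent.Helper53.UW.UMC
import Pool.Agent.Helper41.UW.PMW
import Pool.Agent.Helper44.UW.QWO
import Pool.Agent.Helper81.UW.FWV
import Pool.Agent.Helper35.UW.OLS
import Pool.Agent.Helper14.UW.PAW
import Pool.Agent.Helper66.UW.NBS
import Pool.Agent.Helper33.UW.DCL
import Pool.Agent.Helper62.UW.GDL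

/-!
# PROJECT UR3 (MP_c578c8_lc): the theorem, without hypotheses
-/

namespace Pool.Agent.Helper53.UW

open Pool.Agent.Helper1.TE (USPACE)
open Pool.Agent.Helper78.Mpc (LinComp)
open Pool.Agent.Helper81.Gen4 (Q)
open Pool.Agent.Helper31.Gen5 (Hard)
open Pool.Agent.Helper81.Sus2 (Decomp)
open Pool.Agent.Helper92.RE (enc Universal NonUniversal)
open Pool.Agent.Helper53.UV (Machine)

theorem mainOK (c : ℕ) (hc : 0 < c) :
    ∃ (L : Set (List Bool)) (f : List Bool → RegularExpression Bool) (b : ℕ),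
      L ∈ USPACE (fun n => (n : ℝ)) ∧ Lᶜ ∈ USPACE (fun n => (n : ℝ)) ∧
      LinComp (fun w => enc (f w)) ∧
      (∀ w, w.length ≤ (enc (f w)).length ∧ (enc (f w)).length ≤ b * (w.length + 1)) ∧
      (∀ w, (f w).matches' = ⊤ ↔ w ∉ L) ∧
      (∃ c' : ℝ, ∀ n : ℕ, |({w : List Bool | w.length = n ∧ w ∈ L}.ncard : ℝ) - 2 ^ n / 2| ≤
        c' * 2 ^ ((n : ℝ) / 2)) ∧
      (∀ F : List Bool → List Bool, F = id ∨ F = (fun w => enc (f w)) →
        ∀ (X : Machine) (E : Decomp) (a : ℕ) (C : ℝ),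
          Hard L c (fun w α => X.Acc (F w) α)
            (fun w α => Fast X E a C (c * w.length) (F w).length (F w) α) ∧
          Hard L c (fun w α => Q (c * w.length) fun v => X.Acc (F w) (α ++ v))
            (fun w α => Q (c * w.length) fun v =>
              Fast X E a C (c * w.length) (F w).length (F w) (α ++ v))) ∧
      ∀ U : Set (List Bool), U = Universal ∨ U = NonUniversal →
        ∀ X : Machine, (∀ v, X.Acc v [] → v ∈ U) → ∀ (E : Decomp) (a : ℕ) (C : ℝ),
          {w | Fast X E a C (c * w.length) (enc (f w)).length (enc (f w)) []}.Finite :=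
  asm @Pool.Agent.Helper12.UW.gOLG @Pool.Agent.Helper57.UW.gSUM @Pool.Agent.Helper13.UW.gSUB
    @Pool.Agent.Helper45.UW.gOLE Pool.Agent.Helper53.UW.UMC.gUMC Pool.Agent.Helper41.UW.gPMW
    Pool.Agent.Helper44.UW.gQWO Pool.Agent.Helper81.UW.gFWV Pool.Agent.Helper35.UW.gOLS
    Pool.Agent.Helper14.UW.gPAW Pool.Agent.Helper66.UW.gNBS @Pool.Agent.Helper33.UW.gDCL
    @Pool.Agent.Helper62.UW.gGDL c hc

end Pool.Agent.Helper53.UW
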