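import Pool.Agent.Helper53.UW.Fast
import Pool.Agent.Helper53.UV.Fin

/-!
# PROJECT UR3 (MP_c578c8_lc): assembly
-/

namespace Pool.Agent.Helper53.UW

open Pool.Agent.Helper65.LinSpace Pool.Agent.Helper78.Mpc
open Pool.Agent.Helper1.TE (USPACE)
open Pool.Agent.Helper53.CTG (ev Et)
open Pool.Agent.Helper53.UR (GenOK RedOK QHardOL)
open Pool.Agent.Helper53.UV (Machine accV accW pmW NFW NFV Qn LSParOK ParOK coded_all FnvOK
  GoalCMB TmcOK GoalPRC ls_pmW ls_pmP pmP)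
open Pool.Agent.Helper31.OL (OL OL.ask OL.comp_ls OL.ifz OL.of_ls OL.congr OL.comp bit)
open Pool.Agent.Helper81.Gen4 (Q)
open Pool.Agent.Helper31.Gen5 (Hard)
open Pool.Agent.Helper31.MHS (q_take)
open Pool.Agent.Helper81.RP (Ins AcceptsAt conf)
open Pool.Agent.Helper81.Sus2 (Decomp)
open Pool.Agent.Helper92.KR (Coded par Coded.even Coded.odd)
open Pool.Agent.Helper92.RE (enc Universal NonUniversal LD half_of_hard finite_of_hard machL
  accepts_iff)
open Pool.Agent.Helper31.SB (idD idD_is)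

/-! ### The oracle of project UR2 as a family -/

/-- The questions of project UR2. -/
def qV : QF Qn where
  N := Qn.N
  q := Qn.q
  b := Qn.b
  c := Qn.c
  W := Qn.W
  t := Qn.t
  s := Qn.s

theorem qV_ans (z : Qn) : qV.ans z = accV z.1 z.2.1 z.2.2.1 z.2.2.2 := rfl

theorem qV_ok (hP : ParOK) (hL : LSParOK)
    (hW : ∀ z : Qn, Qn.W z = 2 ^ Et (Qn.N z) (Qn.q z) (Qn.b z) (Qn.c z))
    (hT : LS (fun x : Qn × ℕ × ℕ × ℕ × ℕ × ℕ =>
      Qn.t x.1 x.2.1 x.2.2.1 x.2.2.2.1 x.2.2.2.2.1 x.2.2.2.2.2)) : qV.Ok := by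
  obtain ⟨_, _, _, _, _, _, _, _, g1, g2, g3, g4, g5, g6⟩ := hL
  exact {
    hq := fun z => (hP.1 (Qn.n z) (Qn.T z)).1
    hN := fun z => (hP.1 (Qn.n z) (Qn.T z)).2.1
    hb := fun z => (hP.1 (Qn.n z) (Qn.T z)).2.2.1
    hc := fun z => (hP.1 (Qn.n z) (Qn.T z)).2.2.2.1
    hW := hW
    ht := fun z mm v x y w => hP.2.1 z mm v x y w
    lN := g1
    lq := g2
    lb := g3
    lc := g4
    lW := g5
    lt := hT
    ls := g6 }

theorem bit_ans {κ : Type} (R : QF κ) (z : κ) : bit R.ans z = R.ans z := by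
  unfold bit QF.ans lt01
  split_ifs <;> simp_all

/-! ### Union of two simulations -/

/-- Two codes together. -/
def uni (acc₁ acc₂ : ℕ → ℕ → ℕ → ℕ → ℕ) (N₁ : ℕ → ℕ) (e x y T : ℕ) : ℕ :=
  ifz (lt01 T (N₁ x)) (acc₂ (Nat.unpair e).2 x y (T - N₁ x)) (acc₁ (Nat.unpair e).1 x y T)

theorem coded_uni {acc₁ acc₂ : ℕ → ℕ → ℕ → ℕ → ℕ} {N₁ N₂ : ℕ → ℕ}
    {Acc G₁ G₂ : List Bool → List Bool → Prop} (h₁ : Coded acc₁ N₁ Acc G₁)
    (h₂ : Coded acc₂ N₂ Acc G₂) :
    Coded (uni acc₁ acc₂ N₁) (fun x => N₁ x + N₂ x) Acc (fun w y => G₁ w y ∨ G₂ w y) := by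
  obtain ⟨e₁, n₁, h₁⟩ := h₁
  obtain ⟨e₂, n₂, h₂⟩ := h₂
  have hl : ∀ x y T, T < N₁ x → uni acc₁ acc₂ N₁ (Nat.pair e₁ e₂) x y T = acc₁ e₁ x y T := by
    intro x y T h
    have h1 : lt01 T (N₁ x) = 1 := if_pos h
    unfold uni
    rw [h1, Nat.unpair_pair]
    rfl
  have hr : ∀ x y T, N₁ x ≤ T →
      uni acc₁ acc₂ N₁ (Nat.pair e₁ e₂) x y T = acc₂ e₂ x y (T - N₁ x) := by
    intro x y T h
    have h1 : lt01 T (N₁ x) = 0 := if_neg (by omega)
    unfold uni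
    rw [h1, Nat.unpair_pair]
    rfl
  refine ⟨Nat.pair e₁ e₂, max n₁ n₂, fun w y hw => ⟨fun T hT hne => ?_, fun h => ?_⟩⟩
  · have hT' : T < N₁ (num w) + N₂ (num w) := hT
    rcases lt_or_ge T (N₁ (num w)) with h | h
    · rw [hl _ _ _ h] at hne
      exact (h₁ w y ((le_max_left _ _).trans hw)).1 T h hne
    · rw [hr _ _ _ h] at hne
      exact (h₂ w y ((le_max_right _ _).trans hw)).1 _ (by omega) hne
  · rcases h with h | h
    · obtain ⟨T, hT, hne⟩ := (h₁ w y ((le_max_left _ _).trans hw)).2 h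
      refine ⟨T, ?_, ?_⟩
      · show T < N₁ (num w) + N₂ (num w)
        omega
      · rwa [hl _ _ _ hT]
    · obtain ⟨T, hT, hne⟩ := (h₂ w y ((le_max_right _ _).trans hw)).2 h
      refine ⟨N₁ (num w) + T, ?_, ?_⟩
      · show N₁ (num w) + T < N₁ (num w) + N₂ (num w)
        omega
      · rw [hr _ _ _ (Nat.le_add_right _ _), Nat.add_sub_cancel_left]
        exact hne

/-! ### The oracle -/

/-- All questions. -/
def qY (c : ℕ) : QF (ℕ × Qn × Qw) := qV.sum (qW c)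

/-- Both simulations. -/
def accY (c : ℕ) : ℕ → ℕ → ℕ → ℕ → ℕ := uni accW (accS c) NFW

/-- The number of the codes of the bounds. -/
def NFY (x : ℕ) : ℕ := NFW x + NFS x

/-- The questions can be asked. -/
def YOK : Prop := ∀ c : ℕ, (qY c).Ok ∧
  OL (qY c).ans (fun z : ℕ × ℕ × ℕ × ℕ => accY c z.1 z.2.1 z.2.2.1 z.2.2.2)

theorem yok_of (hSUM : GoalSUM) (hSUB : GoalSUB) (hV : qV.Ok) (hW : ∀ c, (qW c).Ok)
    (hN : LS NFV)
    (hS : ∀ c : ℕ, OL (qW c).ans (fun z : ℕ × ℕ × ℕ × ℕ => accS c z.1 z.2.1 z.2.2.1 z.2.2.2)) :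
    YOK := by
  intro c
  obtain ⟨g1, g2, g3⟩ := hSUM qV (qW c) hV (hW c)
  refine ⟨g1, ?_⟩
  have hNW : LS NFW := LS.mul (LS.const 2) hN
  have k1 : OL (qY c).ans (fun z : ℕ × ℕ × ℕ × ℕ => accW z.1 z.2.1 z.2.2.1 z.2.2.2) := by
    have h1 : LS (fun z : Qn => ((0, pmW z, Pool.Agent.Helper31.OL.def0 Qw) : ℕ × Qn × Qw)) :=
      LS.prodMk (LS.const 0) (LS.prodMk (ls_pmW hN) (LS.const _))
    refine OL.congr (OL.ask (acc := (qY c).ans) (OL.of_ls h1)) fun z => ?_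
    rw [show qY c = qV.sum (qW c) from rfl, bit_ans, g2, qV_ans]
    rfl
  have k2 : OL (qY c).ans (qW c).ans := by
    have h1 : LS (fun z : Qw => ((0 + 1, Pool.Agent.Helper31.OL.def0 Qn, z) : ℕ × Qn × Qw)) :=
      LS.prodMk (LS.const _) (LS.prodMk (LS.const _) LS.id)
    refine OL.congr (OL.ask (acc := (qY c).ans) (OL.of_ls h1)) fun z => ?_
    rw [show qY c = qV.sum (qW c) from rfl, bit_ans, g3]
  have k3 := hSUB _ _ k2 _ (hS c)
  have p0 : LS (fun z : ℕ × ℕ × ℕ × ℕ => z.1) := LS.fst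
  have p1 : LS (fun z : ℕ × ℕ × ℕ × ℕ => z.2.1) := by fun_prop
  have p2 : LS (fun z : ℕ × ℕ × ℕ × ℕ => z.2.2.1) := by fun_prop
  have p3 : LS (fun z : ℕ × ℕ × ℕ × ℕ => z.2.2.2) := by fun_prop
  have p4 : LS (fun z : ℕ × ℕ × ℕ × ℕ => NFW z.2.1) := LS.comp (g := NFW) hNW p1
  have p5 : LS (fun z : ℕ × ℕ × ℕ × ℕ =>
      ((Nat.unpair z.1).2, z.2.1, z.2.2.1, z.2.2.2 - NFW z.2.1)) :=
    LS.prodMk (LS.unpair2 p0) (LS.prodMk p1 (LS.prodMk p2 (LS.sub p3 p4)))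
  have p6 : LS (fun z : ℕ × ℕ × ℕ × ℕ => ((Nat.unpair z.1).1, z.2.1, z.2.2.1, z.2.2.2)) :=
    LS.prodMk (LS.unpair1 p0) (LS.prodMk p1 (LS.prodMk p2 p3))
  have k4 := OL.comp_ls k3 p5
  have k5 := OL.comp_ls k1 p6
  exact OL.ifz (OL.of_ls (LS.lt01 p3 p4)) k4 k5

/-- The hard languages. -/
def HubY : Prop := ∀ c : ℕ, 0 < c → ∃ L : Set (List Bool), L ∈ USPACE (fun n => (n : ℝ)) ∧
  Lᶜ ∈ USPACE (fun n => (n : ℝ)) ∧ ∀ Acc Good : List Bool → List Bool → Prop,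
    Coded (accY c) NFY Acc Good →
      Hard L c Acc Good ∧ Hard L c (fun w α => Q (c * w.length) fun v => Acc w (α ++ v))
        (fun w α => Q (c * w.length) fun v => Good w (α ++ v))

theorem hubY_of (hG : GenOK) (hOLG : GoalOLG) (hSUB : GoalSUB) (hQ : QHardOL) (hN : LS NFV)
    (hY : YOK) : HubY := by
  intro c hc
  obtain ⟨g1, g2⟩ := hY c
  have hNS : LS NFS := LS.pow_const (LS.add (LS.log2 LS.id) (LS.const 2)) 4
  have hNY : LS NFY := LS.add (LS.mul (LS.const 2) hN) hNS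
  obtain ⟨F, h1, h2⟩ := hQ (par (accY c) c) NFY hNY c c hc
  have h3 : OL (qY c).ans (fun z : ℕ × ℕ × ℕ × ℕ => par (accY c) c z.1 z.2.1 z.2.2.1 z.2.2.2) :=
    OL.congr (OL.comp_ls g2 (ls_pmP c)) fun z => by
      unfold par
      rfl
  obtain ⟨h4, h5⟩ := hOLG hG (qY c) g1 F (hSUB _ _ h3 F h1)
  refine ⟨{w | F (num w) ≠ 0}, h4, h5, fun Acc Good hC => ⟨?_, h2 _ _ (hC.even c)⟩⟩
  exact (h2 _ _ (hC.odd c)).mono (fun w α h => (q_take c w α fun y => Acc w y).1 h)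
    (fun w α h => (q_take c w α fun y => Good w y).2 h)

/-! ### The machines -/

theorem coded_left {acc₁ acc₂ : ℕ → ℕ → ℕ → ℕ → ℕ} {N₁ N₂ : ℕ → ℕ}
    {Acc G : List Bool → List Bool → Prop} (h : Coded acc₁ N₁ Acc G)
    (h₂ : ∃ e : ℕ, ∀ x y T, acc₂ e x y T = 0) :
    Coded (uni acc₁ acc₂ N₁) (fun x => N₁ x + N₂ x) Acc G := by
  obtain ⟨e, he⟩ := h₂
  have h3 : Coded acc₂ N₂ Acc (fun _ _ => False) := by
    refine ⟨e, 0, fun w y _ => ⟨fun T _ hne => absurd (he _ _ _) hne, fun h => h.elim⟩⟩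
  refine Pool.Agent.Helper53.UV.Coded.mono (coded_uni h h3) fun w y hG => Or.inl hG

/-- Programs with described memory. -/
theorem coded_sus (hS : SusOK) (hG : GoalGDL) (hD : GoalDCL) {D : LD}
    {F : List Bool → List Bool} (hF : D.Is F) {b₀ : ℕ}
    (hlen : ∀ w, (F w).length ≤ b₀ * (w.length + 1)) (hle : ∀ w, w.length ≤ (F w).length)
    (P : List Ins) (E : Decomp) (c : ℕ) (C : ℝ) :
    Coded (accS c) NFS (fun w y => ∃ t, AcceptsAt P (F w) y t)
      (fun w y => FastSus P E C (c * w.length) (F w).length (F w) y) := by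
  obtain ⟨E', h1⟩ := hG hD P E hF
  obtain ⟨C', n₁, h2⟩ := h1 b₀ c C hlen hle
  obtain ⟨e, n₀, h3⟩ := hS c (machL D P) E' C'
  refine ⟨e, max n₀ n₁, fun w y hw => ⟨fun T hT hne => ?_, fun h => ?_⟩⟩
  · obtain ⟨g, r, hr⟩ := (h3 w y ((le_max_left _ _).trans hw)).1 T hT hne
    obtain ⟨t, _, ht⟩ := (accepts_iff hF P w y g r).1 hr
    exact ⟨t, ht⟩
  · exact (h3 w y ((le_max_left _ _).trans hw)).2 (h2 w y ((le_max_right _ _).trans hw) h)

/-- The empty program accepts nothing. -/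
theorem no_acc (v y : List Bool) (t : ℕ) : ¬AcceptsAt [] v y t := by
  intro h
  have h1 : (none : Option Ins) = some .accept := h
  exact absurd h1 (by simp)

/-- All machines. -/
theorem coded_fastE (hS : SusOK) (hG : GoalGDL) (hD : GoalDCL) (h : FnvOK) (hCM : GoalCMB)
    (hT : TmcOK) (hPR : GoalPRC) {D : LD} {F : List Bool → List Bool} (hF : D.Is F) {b₀ : ℕ}
    (hlen : ∀ w, (F w).length ≤ b₀ * (w.length + 1)) (hle : ∀ w, w.length ≤ (F w).length)
    (X : Machine) (E : Decomp) (a c : ℕ) (C : ℝ) :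
    Coded (accY c) NFY (fun w y => X.Acc (F w) y)
      (fun w y => Fast X E a C (c * w.length) (F w).length (F w) y) := by
  have h1 := coded_all h hCM hT hPR hF hlen hle X a C
  cases X with
  | prog P =>
    have h2 := coded_sus hS hG hD hF hlen hle P E c C
    refine Pool.Agent.Helper53.UV.Coded.mono (coded_uni h1 h2) ?_
    rintro w y (hs | hf)
    · exact Or.inr hs
    · exact Or.inl hf
  | tm M =>
    have h2 := coded_sus hS hG hD hF hlen hle [] E c C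
    have h3 : Coded (accS c) NFS (fun w y => (Machine.tm M).Acc (F w) y) (fun _ _ => False) := by
      obtain ⟨e, n₀, h4⟩ := h2
      refine ⟨e, n₀, fun w y hw => ⟨fun T hT hne => ?_, fun hf => hf.elim⟩⟩
      obtain ⟨t, ht⟩ := (h4 w y hw).1 T hT hne
      exact absurd ht (no_acc _ _ _)
    refine Pool.Agent.Helper53.UV.Coded.mono (coded_uni h1 h3) ?_
    intro w y hf
    exact Or.inl hf

/-- **The lower bound.** -/
theorem main (hub : HubY) (hS : SusOK) (hG : GoalGDL) (hD : GoalDCL) (h : FnvOK)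
    (hCM : GoalCMB) (hT : TmcOK) (hPR : GoalPRC) (hR : RedOK) (c : ℕ) (hc : 0 < c) :
    ∃ (L : Set (List Bool)) (f : List Bool → RegularExpression Bool) (b : ℕ),
      L ∈ USPACE (fun n => (n : ℝ)) ∧ Lᶜ ∈ USPACE (fun n => (n : ℝ)) ∧
      LinComp (fun w => enc (f w)) ∧
      (∀ w, w.length ≤ (enc (f w)).length ∧ (enc (f w)).length ≤ b * (w.length + 1)) ∧
      (∀ w, (f w).matches' = ⊤ ↔ w ∉ L) ∧
      (∃ c' : ℝ, ∀ n : ℕ, |({w : List Bool | w.length = n ∧ w ∈ L}.ncard : ℝ) - 2 ^ n / 2| ≤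
        c' * 2 ^ ((n : ℝ) / 2)) ∧
      (∀ F : List Bool → List Bool, F = id ∨ F = (fun w => enc (f w)) →
        ∀ (X : Machine) (E : Decomp) (a : ℕ) (C : ℝ),
          Hard L c (fun w α => X.Acc (F w) α)
            (fun w α => Fast X E a C (c * w.length) (F w).length (F w) α) ∧
          Hard L c (fun w α => Q (c * w.length) fun v => X.Acc (F w) (α ++ v))
            (fun w α => Q (c * w.length) fun v =>
              Fast X E a C (c * w.length) (F w).length (F w) (α ++ v))) ∧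
      ∀ U : Set (List Bool), U = Universal ∨ U = NonUniversal →
        ∀ X : Machine, (∀ v, X.Acc v [] → v ∈ U) → ∀ (E : Decomp) (a : ℕ) (C : ℝ),
          {w | Fast X E a C (c * w.length) (enc (f w)).length (enc (f w)) []}.Finite := by
  obtain ⟨L, h1, h2, h3⟩ := hub c hc
  obtain ⟨f, hloc, hle, hf⟩ := hR L h1
  obtain ⟨D, hD', b, hlen⟩ := hloc.exists_ld
  have hlen' : ∀ w, (enc (f w)).length ≤ b * (w.length + 1) := hlen
  have hF : ∀ F : List Bool → List Bool, F = id ∨ F = (fun w => enc (f w)) →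
        ∀ (X : Machine) (E : Decomp) (a : ℕ) (C : ℝ),
          Hard L c (fun w α => X.Acc (F w) α)
            (fun w α => Fast X E a C (c * w.length) (F w).length (F w) α) ∧
          Hard L c (fun w α => Q (c * w.length) fun v => X.Acc (F w) (α ++ v))
            (fun w α => Q (c * w.length) fun v =>
              Fast X E a C (c * w.length) (F w).length (F w) (α ++ v)) := by
    rintro F (rfl | rfl) X E a C
    · exact h3 _ _ (coded_fastE hS hG hD h hCM hT hPR idD_is (b₀ := 1) (fun w => by simp)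
        (fun w => le_rfl) X E a c C)
    · exact h3 _ _ (coded_fastE hS hG hD h hCM hT hPR hD' hlen' hle X E a c C)
  refine ⟨L, f, b, h1, h2, hloc.linComp, fun w => ⟨hle w, hlen w⟩, hf, ?_, hF,
    fun U hU X hX E a C =>
      finite_of_hard (hF _ (Or.inr rfl) X E a C).1 hf hU fun w hw => hX _ hw⟩
  have E0 : Decomp := ⟨fun _ => [], fun _ => [], Pool.Agent.Helper92.RECT.linComp_nil,
    Pool.Agent.Helper92.RECT.linComp_nil⟩
  refine half_of_hard (c := c)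
    ((hF id (Or.inl rfl) (Machine.prog []) E0 0 0).1.mono ?_ ?_)
  · rintro w α ⟨t, ht⟩
    exact absurd ht (no_acc _ _ _)
  · exact fun w α h => h.elim

end Pool.Agent.Helper53.UW
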