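import Pool.Agent.Helper53.UW.Ask

/-!
# PROJECT UR3 (MP_c578c8_lc): goals, part B (the simulation between two descriptions)
-/

namespace Pool.Agent.Helper53.UW

open Pool.Agent.Helper65.LinSpace Pool.Agent.Helper78.Mpc Pool.Agent.Helper28.Ram Filter
open Pool.Agent.Helper65.BR (bT lT)
open Pool.Agent.Helper28.Long (ZL)
open Pool.Agent.Helper53.CTG (ev Et)
open Pool.Agent.Helper53.UR (KU)
open Pool.Agent.Helper53.UV (RM TOk tb eV okV bV cV NV Qn LSParOK ParOK)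
open Pool.Agent.Helper31.OL (OL)
open Pool.Agent.Helper81.Sus2 (Prm LSP Cod CodE COD_stmt NBM Decomp cdeN CS SIL_stmt)
open Pool.Agent.Helper81.Sus3 (vN v0 vf edge LSW_stmt)

/-! ### The machine -/

/-- The machine with blocks for `vf`: a read returns the new event. -/
def um (P : Prm) (τ Y c p d p' a : ℕ) : RM where
  s := P.V + 1
  a := P.Z + 1
  ν := P.V + 1
  g := P.V + 1
  A := P.wA τ a
  R q k := vN P τ Y d p' a q k
  N _ v := capN P.V v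
  W _ v x k := P.wW x (capN P.V v) k
  q0 := v0 P c p
  M0 := P.cm c

/-- UMC. `capN V` is applied last in `vN`, `wA`, `v0`, `capN Z` in `wW`, `cm` (`capN_lt`), and
`capN V (vN …) = vN …`. Second part: induction on `k` (`gf` in `Pool/Agent/Helper28/Sus/Macro.lean`). -/
structure UMC_stmt : Prop where
  ok : ∀ (P : Prm) (τ Y c p d p' a : ℕ), (um P τ Y c p d p' a).Ok
  eq : ∀ (P : Prm) (τ Y c p d p' a k : ℕ), (um P τ Y c p d p' a).conf k = vf P τ Y c p d p' a k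

/-! ### Parameters

The bounds `V, Z, V, V` are the digits `0, 1, 2, 3` of `T` in base `n + 2`; `S = V - 5 ll n`. -/

/-- `1` if the parameters are admissible. -/
def okW (n T : ℕ) : ℕ :=
  okV n T * (eq01 (bT n T 2) (bT n T 0) * (eq01 (bT n T 3) (bT n T 0) *
    (le01 (5 * ll n) (bT n T 0) * le01 (bT n T 0 - 5 * ll n + 1) (gR n))))

/-- The parameters. -/
def prmW (c₀ e x y T : ℕ) : Prm where
  toCde := cdeN e
  Λ := LW (Nat.log 2 x)
  β := 2 ^ (2 * ll (Nat.log 2 x))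
  B := CR x
  x := x
  y := y
  S := okW (Nat.log 2 x) T * (bT (Nat.log 2 x) T 0 - 5 * ll (Nat.log 2 x))
  Z := okW (Nat.log 2 x) T * bT (Nat.log 2 x) T 1
  u := c₀ * Nat.log 2 x
  V := okW (Nat.log 2 x) T * bT (Nat.log 2 x) T 0
  z := 0

/-- A question: `((e, x, y, T), c, p, d, p', Y, τ, a)`. -/
abbrev Qw := (ℕ × ℕ × ℕ × ℕ) × ℕ × ℕ × ℕ × ℕ × ℕ × ℕ × ℕ

/-- The question of project UR2 with the same tree. -/
def zn (z : Qw) : Qn := (0, z.1.2.1, 0, z.1.2.2.2 * (2 * z.1.2.1 + 2))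

/-- The machine. -/
def mW (c₀ : ℕ) (z : Qw) : RM :=
  um (prmW c₀ z.1.1 z.1.2.1 z.1.2.2.1 z.1.2.2.2) z.2.2.2.2.2.2.1 z.2.2.2.2.2.1 z.2.1 z.2.2.1
    z.2.2.2.1 z.2.2.2.2.1 z.2.2.2.2.2.2.2

/-- The family of the questions. -/
def qW (c₀ : ℕ) : QF Qw where
  N z := Qn.N (zn z)
  q z := Qn.q (zn z)
  b z := Qn.b (zn z)
  c z := Qn.c (zn z)
  W z := Qn.W (zn z)
  t z := tb (mW c₀ z) (eV (Qn.n (zn z)) (Qn.T (zn z))) (Qn.N (zn z)) (Qn.b (zn z))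
  s z v := okW (Qn.n (zn z)) (Qn.T (zn z)) * eq01 v 1

/-- The result of the simulation. -/
def FW (c₀ e x y T c p d p' Y τ a : ℕ) : ℕ := (qW c₀).ans ((e, x, y, T), c, p, d, p', Y, τ, a)

/-- The answer. -/
def accS (c₀ e x y T : ℕ) : ℕ :=
  okW (Nat.log 2 x) T * (lt01 0 ((prmW c₀ e x y T).cq 1) *
    edge (prmW c₀ e x y T) (FW c₀ e x y T) 1 0)

/-- The number of the codes `T`. -/
def NFS (x : ℕ) : ℕ := (Nat.log 2 x + 2) ^ 4

/-! ### Goals -/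

/-- PMW. The parameters are computed in linear space, and bounded. As PRM (`Pool/Agent/Helper81/Sus2/PRM.lean`);
`bT n T i ≤ ZL n ≤ n` (`Pool/Agent/Helper56/BR/LSP.lean`: `bT_le`), `LS` of `okV`, `bT`: LSParOK,
`Pool/Agent/Helper62/UV/LPR.lean`, `Pool/Agent/Helper56/BR/LSP.lean`. `Cod`, `CodE`: from COD, as in
`exists_good` (`Pool/Agent/Helper81/Sus3/Fin.lean`, `ev_cod` in `Sus2/Fin.lean`): `S < gR n` and `Z ≤ ZL n`
always (if `okW = 0` then `S = Z = 0`). -/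
structure PMW_stmt : Prop where
  ls : ∀ (α : Type) [Ctx α] (c₀ : ℕ) (e x y T : α → ℕ), LS e → LS x → LS y → LS T →
    LSP (fun z => prmW c₀ (e z) (x z) (y z) (T z)) (fun z => CS c₀ (x z)) ∧
    LS (fun z => okW (Nat.log 2 (x z)) (T z))
  sv : ∀ c₀ e x y T : ℕ, (prmW c₀ e x y T).S ≤ (prmW c₀ e x y T).V
  cod : COD_stmt → ∀ (A : NBM) (E : Decomp), ∃ e n₀ : ℕ, ∀ w y : List Bool, n₀ ≤ w.length →
    ∀ c₀ T : ℕ, Cod A w y (prmW c₀ e (num w) (num y) T) ∧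
      CodE E (prmW c₀ e (num w) (num y) T)

def GoalPMW : Prop := LSParOK → PMW_stmt

/-- QWO. The family is good. `hq … hc`: first part of ParOK (for `Qn.n (zn z)`, `Qn.T (zn z)`), `hW`: the
second part of ETB, `lN … lW`: LSParOK and composition with `LS zn`. `ht`: `% 2 ^ b`. `lt`: as TLS
(`Pool/Agent/Helper36/UV/TLS.lean`), with LSW for the functions of the machine (`α = Qw`,
`P z = prmW c₀ …`, PMW.ls) instead of LSMOK; all values of the functions are smaller than `2 ^ (V + 1)` or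
`2 ^ (Z + 1)` (UMC.ok), and `V + 1 + (V + 1) * 2 ^ eV ≤ 3 (n + 1)`: if `okW ≠ 0` then `bT 3 = bT 0 = V` and ParOK;
if `okW = 0` then `V = 0`. `ls`: PMW.ls. `Qn.T (zn z) = z.1.2.2.2` (`Nat.mul_div_cancel`). -/
def GoalQWO : Prop := UMC_stmt → PMW_stmt → ParOK → LSParOK →
  (∀ z : Qn, Qn.W z = 2 ^ Et (Qn.N z) (Qn.q z) (Qn.b z) (Qn.c z)) → LSW_stmt →
  ∀ c₀ : ℕ, (qW c₀).Ok

/-- The value of the simulation. -/
def FwOK : Prop := ∀ c₀ e x y T c p d p' Y τ a : ℕ,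
  (FW c₀ e x y T c p d p' Y τ a = 1 ↔ okW (Nat.log 2 x) T ≠ 0 ∧
    (vf (prmW c₀ e x y T) τ Y c p d p' a
      (KU (Nat.log 2 x) T * 2 ^ eV (Nat.log 2 x) T)).1 = 1)

/-- FWV. If `okW ≠ 0` then `TOk (mW c₀ z) (eV n T) (KU n T) (bV n T) (cV n T)` (`okV ≠ 0`: the three `le01` of
`okV` are `1`; `m.s = bT 0 + 1`, `m.a = bT 1 + 1`, `m.ν = bT 0 + 1 = bT 2 + 1 < bT 2 + 2 = cV`,
`m.g = bT 0 + 1 = bT 3 + 1`; `1 ≤ KU`; compare `Pool/Agent/Helper13/UV/PRA.lean`), so `val` is the state after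
`KU * 2 ^ eV` steps by the theorem on the tree, and UMC.eq. `Qn.T (zn z) = T`, `Qn.n (zn z) = log₂ x`. -/
def GoalFWV : Prop := UMC_stmt →
  (∀ (m : RM) (e K b c : ℕ), TOk m e K b c →
    ev (tb m e (K * (e + 3)) b) (e + 3) c (K * (e + 3)) 1 0 = (m.conf (K * 2 ^ e)).1) → FwOK

/-- OLS. `accS` is computed by a loop with questions from `qW c₀`. OLE with `P z = prmW …` (PMW.ls) and
`F z c p d p' Y τ a = FW …`, which is `bit (qW c₀).ans ((e, x, y, T), c, …)` (`ans` is `0` or `1`), so it is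
`OL` by `OL.ask0` (or `OL.ask`) and `OL.comp_ls`. `cq 1`: `LS` (`ls_cq` in Sus2/LSW). -/
def GoalOLS : Prop := GoalOLE → PMW_stmt → ∀ c₀ : ℕ,
  OL (qW c₀).ans (fun z : ℕ × ℕ × ℕ × ℕ => accS c₀ z.1 z.2.1 z.2.2.1 z.2.2.2)

/-- The computation `A` accepts `w`, with the second word `y`, at the time `r`, with at most `c n` guessed
letters, states and names of at most `s` bits, contents of at most `a` bits, and every stretch
of more than `x` steps encloses a time when the memory has a description of at most `c n` bits, where, for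
`l = ⌊log₂ n⌋ + 1`, `x (s + l) ^ 5 ≤ C (n + 1) ^ 2` and `(s + a) (s + l) ^ 4 ≤ C (n + 1)`. -/
def GoodS (A : NBM) (E : Decomp) (c : ℕ) (C : ℝ) (w y : List Bool) : Prop :=
  ∃ (g : ℕ → Bool) (r s a x : ℕ), A.AcceptsAt w y g r ∧ A.Fits w y g r s a ∧
    A.guesses w y g 0 r ≤ c * w.length ∧
    (∀ t t' : ℕ, t ≤ t' → t' ≤ r →
      (∀ u, t < u → u < t' → ¬A.Short E w y g s a (c * w.length) 0 [] u) → t' ≤ t + x) ∧
    (x : ℝ) * ((s : ℝ) + ((Nat.log 2 w.length : ℝ) + 1)) ^ 5 ≤ C * ((w.length : ℝ) + 1) ^ 2 ∧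
    ((s : ℝ) + a) * ((s : ℝ) + ((Nat.log 2 w.length : ℝ) + 1)) ^ 4 ≤ C * ((w.length : ℝ) + 1)

/-- PAW. The parameters for large `n`. Put `l = ll n`, `V = s + 5 l`, `Λ = s + l` (real), so
`V + l ≤ 6 Λ`. ASV (`Pool/Agent/Helper98/UV/ASV.lean`) for `x + 2` reads, `s = V`, `m = V`, `a`, `g = V`:
`(x + 2) (V + 1) (V + l) ^ 4 ≤ (x + 2) (6 Λ) ^ 5` and `2 Λ ^ 5 ≤ 2 C (n + 1) l`... (second hypothesis:
`s Λ ^ 4 ≤ C (n + 1)` and `l Λ ^ 4 ≤ (n + 1) ^ 2`, as `Λ ^ 4 ≤ 2 ^ 4 (C + 1) (n + 1)` or `s = 0` and `Λ = l`), so it is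
at most `C' (n + 1) ^ 2`; `(V + a + V) (V + l) ^ 4 ≤ C' (n + 1)` if `s ≥ l`; for `s < l` all is polylogarithmic in
`n`, except `a (V + l) ^ 4 ≤ a (7 l) ^ 4 ≤ 7 ^ 4 a Λ ^ 4`. This gives `T` with the digits `V, a, V, V`, `okV = 1`.
`s + 1 ≤ gR n` for large `n` (`s ^ 5 ≤ C (n + 1)`, `gR n ≥ √(n / l)`). `2 + 2 ^ (s + 1) (c n + 1) (x + 2) ≤
2 ^ (V + 1)` as `(c n + 1) (x + 2) ≤ 2 ^ (4 l)` for large `n` (`x ≤ C (n + 1) ^ 2`, `n < 2 ^ l`). -/
def GoalPAW : Prop := ∀ (C : ℝ) (c : ℕ), ∀ᶠ n : ℕ in atTop, ∀ s a x : ℕ,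
  (x : ℝ) * ((s : ℝ) + ((Nat.log 2 n : ℝ) + 1)) ^ 5 ≤ C * ((n : ℝ) + 1) ^ 2 →
  ((s : ℝ) + a) * ((s : ℝ) + ((Nat.log 2 n : ℝ) + 1)) ^ 4 ≤ C * ((n : ℝ) + 1) →
  ∃ T < (n + 2) ^ 4, okW n T = 1 ∧ bT n T 0 = s + 5 * ll n ∧ bT n T 1 = a ∧
    2 + 2 ^ (s + 1) * ((c * n + 1) * (x + 1)) ≤ 2 ^ (s + 5 * ll n + 1) ∧
    x < 2 ^ (s + 5 * ll n) ∧ x + 1 ≤ KU n T * 2 ^ eV n T

/-- The conclusion of NBS. -/
def SusOK : Prop := ∀ (c : ℕ) (A : NBM) (E : Decomp) (C : ℝ),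
  ∃ e n₀ : ℕ, ∀ w y : List Bool, n₀ ≤ w.length →
    (∀ T < NFS (num w), accS c e (num w) (num y) T ≠ 0 → ∃ g r, A.AcceptsAt w y g r) ∧
    (GoodS A E c C w y → ∃ T < NFS (num w), accS c e (num w) (num y) T ≠ 0)

/-- NBS. As `sound`, `complete`, `exists_good` in `Pool/Agent/Helper81/Sus3/Fin.lean`, with one part (`K = 1`,
`τ 0 = 0`, `τ 1 = r`, no reachability): sound: EDS for `edge P F 1 0 ≠ 0`, `rep_start`; complete: EDC with `t₀ = 0`,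
`t₁ = r`, `c = 1`, `d = 0`, `M = x`; `A.Known … 0 …` always holds. The first hypothesis of EDS, EDC for
`F = FW c₀ e x y T` is FwOK (`T = KU * 2 ^ eV`); the second one: `(vf … (KU * 2 ^ eV)).1 = 1` as
`τ ≤ M = x < KU * 2 ^ eV`; the bound of `chs` is not needed (take for the number of messages `x + 1` or any
number such that `A.msgs w y g t t' ≤ t' - t`). `r` is the smallest accepting time only if this is needed.
`Exact` and `Short` as in `complete` (`cl_says`, `cn`, `hshort`). -/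
def GoalNBS : Prop := FwOK → PMW_stmt → Pool.Agent.Helper81.Sus3.Parts → GoalPAW → SusOK

end Pool.Agent.Helper53.UW
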